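import Mathlib

/-!
Dimensions of morphism spaces in a linear pretriangulated category, and mutations.
-/

set_option autoImplicit false
set_option linter.unusedSectionVars false

open CategoryTheory Pretriangulated Limits
open scoped ZeroObject

namespace Pool.Agent.W2helper44.Tc

universe v u

variable {C : Type u} [Category.{v} C] [Preadditive C] [Linear ℂ C] [HasZeroObject C]
  [HasShift C ℤ] [∀ n : ℤ, (shiftFunctor C n).Additive]
  [∀ n : ℤ, Functor.Linear ℂ (shiftFunctor C n)] [Pretriangulated C]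

/-- the dimension of the space of morphisms `X → Y[n]` -/
noncomputable def D (X Y : C) (n : ℤ) : Cardinal.{v} := Module.rank ℂ (X ⟶ Y⟦n⟧)

theorem rank_eq_zero {X Y : C} : Module.rank ℂ (X ⟶ Y) = 0 ↔ ∀ f : X ⟶ Y, f = 0 := by
  rw [rank_zero_iff]
  constructor
  · intro h f; exact Subsingleton.elim _ _
  · intro h; exact ⟨fun a b => by rw [h a, h b]⟩

theorem D_zero {X Y : C} {n : ℤ} : D X Y n = 0 ↔ ∀ f : X ⟶ Y⟦n⟧, f = 0 := rank_eq_zero

/-- composition with isomorphisms -/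
noncomputable def homEquiv {X X' Y Y' : C} (e : X ≅ X') (e' : Y ≅ Y') :
    (X ⟶ Y) ≃ₗ[ℂ] (X' ⟶ Y') where
  toFun f := e.inv ≫ f ≫ e'.hom
  map_add' f g := by simp
  map_smul' c f := by simp
  invFun f := e.hom ≫ f ≫ e'.inv
  left_inv f := by simp
  right_inv f := by simp

theorem rank_iso {X X' Y Y' : C} (e : X ≅ X') (e' : Y ≅ Y') :
    Module.rank ℂ (X ⟶ Y) = Module.rank ℂ (X' ⟶ Y') := (homEquiv e e').rank_eq

theorem D_iso {X X' Y Y' : C} (e : X ≅ X') (e' : Y ≅ Y') (n : ℤ) : D X Y n = D X' Y' n :=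
  rank_iso e ((shiftFunctor C n).mapIso e')

/-- the shift on morphisms -/
noncomputable def shiftEquiv' (X Y : C) (n : ℤ) : (X ⟶ Y) ≃ₗ[ℂ] (X⟦n⟧ ⟶ Y⟦n⟧) where
  toFun f := f⟦n⟧'
  map_add' f g := by simp
  map_smul' c f := by simp
  invFun f := (shiftFunctor C n).preimage f
  left_inv f := by simp
  right_inv f := by simp

theorem rank_shift (X Y : C) (n : ℤ) :
    Module.rank ℂ (X⟦n⟧ ⟶ Y⟦n⟧) = Module.rank ℂ (X ⟶ Y) := (shiftEquiv' X Y n).rank_eq.symm

theorem D_right (X Y : C) (m n : ℤ) : D X (Y⟦m⟧) n = D X Y (m + n) :=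
  rank_iso (Iso.refl X) ((shiftFunctorAdd C m n).app Y).symm

theorem D_left (X Y : C) (m n : ℤ) : D (X⟦m⟧) Y n = D X Y (n - m) := by
  have h1 : Module.rank ℂ (X⟦m⟧ ⟶ (Y⟦n - m⟧)⟦m⟧) = D X Y (n - m) := rank_shift X (Y⟦n - m⟧) m
  rw [← h1]
  exact rank_iso (Iso.refl _) ((shiftFunctorAdd' C (n - m) m n (by ring)).app Y)

theorem D_neg (X Y : C) (n : ℤ) : D X Y n = Module.rank ℂ (X⟦-n⟧ ⟶ Y) := by
  have h : D X Y n = D (X⟦-n⟧) Y 0 := by rw [D_left]; congr 1; ring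
  rw [h]
  exact rank_iso (Iso.refl _) ((shiftFunctorZero C ℤ).app Y)

/-- composition with a morphism on the right -/
noncomputable def postc {W X Y : C} (f : X ⟶ Y) : (W ⟶ X) →ₗ[ℂ] (W ⟶ Y) where
  toFun g := g ≫ f
  map_add' g g' := by simp
  map_smul' c g := by simp

/-- composition with a morphism on the left -/
noncomputable def prec {W X Y : C} (f : X ⟶ Y) : (Y ⟶ W) →ₗ[ℂ] (X ⟶ W) where
  toFun g := f ≫ g
  map_add' g g' := by simp
  map_smul' c g := by simp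

section

variable (T : Triangle C) (hT : T ∈ distTriang C) (W : C)
include hT

theorem cov0 (h1 : ∀ f : W ⟶ T.obj₁, f = 0) (h2 : ∀ f : W ⟶ T.obj₁⟦(1 : ℤ)⟧, f = 0) :
    Module.rank ℂ (W ⟶ T.obj₂) = Module.rank ℂ (W ⟶ T.obj₃) := by
  refine (LinearEquiv.ofBijective (postc (W := W) T.mor₂) ⟨?_, ?_⟩).rank_eq
  · rw [injective_iff_map_eq_zero]
    intro g hg
    obtain ⟨k, rfl⟩ := Triangle.coyoneda_exact₂ T hT g hg
    rw [h1 k, zero_comp]
  · intro g
    obtain ⟨k, hk⟩ := Triangle.coyoneda_exact₃ T hT g (h2 _)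
    exact ⟨k, hk.symm⟩

theorem con0 (h1 : ∀ f : T.obj₁ ⟶ W, f = 0) (h2 : ∀ f : T.obj₁⟦(1 : ℤ)⟧ ⟶ W, f = 0) :
    Module.rank ℂ (T.obj₃ ⟶ W) = Module.rank ℂ (T.obj₂ ⟶ W) := by
  refine (LinearEquiv.ofBijective (prec (W := W) T.mor₂) ⟨?_, ?_⟩).rank_eq
  · rw [injective_iff_map_eq_zero]
    intro g hg
    obtain ⟨k, rfl⟩ := Triangle.yoneda_exact₃ T hT g hg
    rw [h2 k, comp_zero]
  · intro g
    obtain ⟨k, hk⟩ := Triangle.yoneda_exact₂ T hT g (h1 _)
    exact ⟨k, hk.symm⟩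

theorem sand (h1 : ∀ f : T.obj₁ ⟶ W, f = 0) (h3 : ∀ f : T.obj₃ ⟶ W, f = 0) (f : T.obj₂ ⟶ W) :
    f = 0 := by
  obtain ⟨k, rfl⟩ := Triangle.yoneda_exact₂ T hT f (h1 _)
  rw [h3 k, comp_zero]

theorem sandc (h1 : ∀ f : W ⟶ T.obj₁, f = 0) (h3 : ∀ f : W ⟶ T.obj₃, f = 0) (f : W ⟶ T.obj₂) :
    f = 0 := by
  obtain ⟨k, rfl⟩ := Triangle.coyoneda_exact₂ T hT f (h3 _)
  rw [h1 k, zero_comp]

end

theorem rz {W X : C} (h : ∀ n, D W X n = 0) (m : ℤ) (f : W⟦m⟧ ⟶ X) : f = 0 := by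
  have := h (-m)
  rw [D_neg, neg_neg] at this
  exact rank_eq_zero.1 this f

theorem rz1 {W X : C} {m : ℤ} (h : D W X (-m) = 0) (f : W⟦m⟧ ⟶ X) : f = 0 := by
  rw [D_neg, neg_neg] at h
  exact rank_eq_zero.1 h f

theorem lz1 {W X : C} {m : ℤ} (h : D W X m = 0) (f : W ⟶ X⟦m⟧) : f = 0 := D_zero.1 h f

section

variable {P Q R : C} {f : P ⟶ Q} {g : Q ⟶ R} {h : R ⟶ P⟦(1 : ℤ)⟧}
  (hT : Triangle.mk f g h ∈ distTriang C) (W : C)
include hT

/-- `Hom(W, P[n]) = 0 = Hom(W, P[n + 1])` implies `Hom(W, Q[n]) = Hom(W, R[n])` -/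
theorem cov (n : ℤ) (h1 : D W P n = 0) (h2 : D W P (n + 1) = 0) : D W Q n = D W R n := by
  rw [D_neg, D_neg W R]
  refine cov0 _ hT (W⟦-n⟧) (fun k => rz1 (by rw [neg_neg]; exact h1) k) (fun k => ?_)
  refine rz1 (m := -n) (X := P⟦(1 : ℤ)⟧) ?_ k
  rw [D_right, neg_neg, add_comm]
  exact h2

/-- `Hom(P, W[n]) = 0 = Hom(P, W[n - 1])` implies `Hom(R, W[n]) = Hom(Q, W[n])` -/
theorem con (n : ℤ) (h1 : D P W n = 0) (h2 : D P W (n - 1) = 0) : D R W n = D Q W n := by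
  refine con0 _ hT (W⟦n⟧) (fun k => lz1 h1 k) (fun k => ?_)
  exact lz1 (W := P⟦(1 : ℤ)⟧) (by rw [D_left]; exact h2) k

theorem cov' (n : ℤ) (h1 : D W Q n = 0) (h2 : D W Q (n + 1) = 0) : D W R n = D W P (n + 1) := by
  have h3 := cov (f := g) (g := h) (h := -f⟦(1 : ℤ)⟧') (rot_of_distTriang _ hT) W n h1 h2
  rw [h3, D_right, add_comm]

theorem con' (n : ℤ) (h1 : D Q W n = 0) (h2 : D Q W (n - 1) = 0) : D R W n = D P W (n - 1) := by
  have h3 := con (f := g) (g := h) (h := -f⟦(1 : ℤ)⟧') (rot_of_distTriang _ hT) W n h1 h2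
  rw [← h3, D_left]

theorem con_zero (n : ℤ) (h1 : D P W n = 0) (h3 : D R W n = 0) : D Q W n = 0 :=
  D_zero.2 fun k => sand _ hT (W⟦n⟧) (fun k => lz1 h1 k) (fun k => lz1 h3 k) k

theorem cov_zero (n : ℤ) (h1 : D W P n = 0) (h3 : D W R n = 0) : D W Q n = 0 := by
  rw [D_neg] at h1 h3 ⊢
  exact rank_eq_zero.2 (sandc _ hT (W⟦-n⟧) (rank_eq_zero.1 h1) (rank_eq_zero.1 h3))

end

/-- all morphisms `X → Y[n]` are zero -/
def Zer (X Y : C) : Prop := ∀ n, D X Y n = 0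

/-- the space of the morphisms `X → Y[n]` is one-dimensional for `n = m` and zero otherwise -/
def Conc (X Y : C) (m : ℤ) : Prop := ∀ n, D X Y n = if n = m then 1 else 0

theorem Conc.zero {X Y : C} {m n : ℤ} (h : Conc X Y m) (hn : n ≠ m) : D X Y n = 0 := by
  rw [h n, if_neg hn]

theorem Conc.one {X Y : C} {m : ℤ} (h : Conc X Y m) : D X Y m = 1 := by
  rw [h m, if_pos rfl]

theorem Conc.right {X Y : C} {m : ℤ} (h : Conc X Y m) (k : ℤ) : Conc X (Y⟦k⟧) (m - k) := by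
  intro n
  rw [D_right, h]
  congr 1
  exact propext ⟨fun h => by omega, fun h => by omega⟩

theorem Conc.left {X Y : C} {m : ℤ} (h : Conc X Y m) (k : ℤ) : Conc (X⟦k⟧) Y (m + k) := by
  intro n
  rw [D_left, h]
  congr 1
  exact propext ⟨fun h => by omega, fun h => by omega⟩

theorem Zer.right {X Y : C} (h : Zer X Y) (k : ℤ) : Zer X (Y⟦k⟧) := by
  intro n; rw [D_right]; exact h _

theorem Zer.left {X Y : C} (h : Zer X Y) (k : ℤ) : Zer (X⟦k⟧) Y := by
  intro n; rw [D_left]; exact h _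

section

variable {P Q R : C} {f : P ⟶ Q} {g : Q ⟶ R} {h : R ⟶ P⟦(1 : ℤ)⟧}
  (hT : Triangle.mk f g h ∈ distTriang C) {W : C}
include hT

theorem Zer.cov (h1 : Zer W P) (h2 : Zer W Q) : Zer W R := fun n => by
  rw [← Tc.cov hT W n (h1 _) (h1 _)]; exact h2 n

theorem Zer.con (h1 : Zer P W) (h2 : Zer Q W) : Zer R W := fun n => by
  rw [Tc.con hT W n (h1 _) (h1 _)]; exact h2 n

theorem Conc.cov {m : ℤ} (h1 : Zer W P) (h2 : Conc W Q m) : Conc W R m := fun n => by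
  rw [← Tc.cov hT W n (h1 _) (h1 _)]; exact h2 n

theorem Conc.con {m : ℤ} (h1 : Zer P W) (h2 : Conc Q W m) : Conc R W m := fun n => by
  rw [Tc.con hT W n (h1 _) (h1 _)]; exact h2 n

theorem Conc.cov' {m : ℤ} (h1 : Zer W Q) (h2 : Conc W P m) : Conc W R (m - 1) := fun n => by
  rw [Tc.cov' hT W n (h1 _) (h1 _), h2]
  congr 1
  exact propext ⟨fun h => by omega, fun h => by omega⟩

theorem Conc.con' {m : ℤ} (h1 : Zer Q W) (h2 : Conc P W m) : Conc R W (m + 1) := fun n => by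
  rw [Tc.con' hT W n (h1 _) (h1 _), h2]
  congr 1
  exact propext ⟨fun h => by omega, fun h => by omega⟩

end

theorem exists_of_rank_one {X Y : C} (h : Module.rank ℂ (X ⟶ Y) = 1) :
    ∃ f : X ⟶ Y, f ≠ 0 ∧ ∀ g : X ⟶ Y, ∃ c : ℂ, g = c • f := by
  obtain ⟨f, hf, h2⟩ := rank_eq_one_iff.1 h
  exact ⟨f, hf, fun g => (h2 g).imp fun c hc => hc.symm⟩

theorem scalar {X : C} (h : Conc X X 0) (g : X ⟶ X) : ∃ c : ℂ, g = c • 𝟙 X := by
  have h1 : Module.rank ℂ (X ⟶ X) = 1 := by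
    rw [← h.one]
    exact rank_iso (Iso.refl _) ((shiftFunctorZero C ℤ).app X).symm
  obtain ⟨f, hf, h2⟩ := exists_of_rank_one h1
  obtain ⟨c, hc⟩ := h2 (𝟙 X)
  obtain ⟨d, hd⟩ := h2 g
  have hc0 : c ≠ 0 := by
    rintro rfl
    rw [zero_smul] at hc
    exact hf (by rw [← Category.comp_id f, hc, comp_zero])
  refine ⟨d * c⁻¹, ?_⟩
  rw [hc, smul_smul, mul_assoc, inv_mul_cancel₀ hc0, mul_one, hd]

/-- The key step of a mutation: `P` is exceptional, the morphisms `P → Q` are spanned by `f ≠ 0`,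
and `R` is the cone of `f`. -/
theorem kill {P Q R : C} {f : P ⟶ Q} {g : Q ⟶ R} {h : R ⟶ P⟦(1 : ℤ)⟧}
    (hT : Triangle.mk f g h ∈ distTriang C) (hP : Conc P P 0) (hf : f ≠ 0)
    (hs : ∀ k : P ⟶ Q, ∃ c : ℂ, k = c • f) (n : ℤ) (hn : n ≠ 0 → D P Q n = 0) :
    D P R n = 0 := by
  have h12 : f ≫ g = 0 := comp_distTriang_mor_zero₁₂ _ hT
  have h31 : h ≫ f⟦(1 : ℤ)⟧' = 0 := comp_distTriang_mor_zero₃₁ _ hT
  have ex3 : ∀ {W : C} (k : W ⟶ R), k ≫ h = 0 → ∃ l : W ⟶ Q, k = l ≫ g := fun k hk =>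
    Triangle.coyoneda_exact₃ _ hT k hk
  by_cases h0 : n = 0
  · subst h0
    have e : D P R 0 = Module.rank ℂ (P ⟶ R) :=
      rank_iso (Iso.refl _) ((shiftFunctorZero C ℤ).app R)
    rw [e]
    refine rank_eq_zero.2 fun k => ?_
    obtain ⟨l, hl⟩ := ex3 k (lz1 (hP.zero one_ne_zero) _)
    obtain ⟨c, hc⟩ := hs l
    rw [hl, hc, Linear.smul_comp, h12, smul_zero]
  · rw [D_neg]
    refine rank_eq_zero.2 fun k => ?_
    have h3 : k ≫ h = 0 := by
      by_cases h1 : n = -1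
      · subst h1
        obtain ⟨c, hc⟩ := scalar (X := P⟦(1 : ℤ)⟧) (by
          have := (hP.left 1).right 1
          rwa [zero_add, sub_self] at this) (k ≫ h)
        have h4 : (k ≫ h) ≫ f⟦(1 : ℤ)⟧' = 0 := by rw [Category.assoc, h31, comp_zero]
        have h5 : c • f⟦(1 : ℤ)⟧' = 0 := by
          rw [← h4, hc]
          exact ((Linear.smul_comp _ _ _ c (𝟙 (P⟦(1 : ℤ)⟧)) (f⟦(1 : ℤ)⟧')).trans
            (by rw [Category.id_comp])).symm
        rcases smul_eq_zero.1 h5 with h6 | h6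
        · rw [hc, h6, zero_smul]
        · exfalso
          apply hf
          exact (shiftFunctor C (1 : ℤ)).map_injective (by rw [h6, Functor.map_zero])
      · refine rz1 (m := -n) (X := P⟦(1 : ℤ)⟧) ?_ _
        rw [D_right, neg_neg]
        exact hP.zero (by omega)
    obtain ⟨l, hl⟩ := ex3 k h3
    rw [hl, rz1 (m := -n) (by rw [neg_neg]; exact hn h0) l, zero_comp]

theorem kill_zer {P Q R : C} {f : P ⟶ Q} {g : Q ⟶ R} {h : R ⟶ P⟦(1 : ℤ)⟧}
    (hT : Triangle.mk f g h ∈ distTriang C) (hP : Conc P P 0) (hf : f ≠ 0)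
    (hs : ∀ k : P ⟶ Q, ∃ c : ℂ, k = c • f) (hn : Conc P Q 0) : Zer P R :=
  fun n => kill hT hP hf hs n fun h => hn.zero h

/-- the dimension of the endomorphisms of the cone `R` of `P → Q`, if `Hom(P, R[n]) = 0` and
`Hom(Q, P[n]) = 0` for all `n` -/
theorem conc_cone {P Q R : C} {f : P ⟶ Q} {g : Q ⟶ R} {h : R ⟶ P⟦(1 : ℤ)⟧}
    (hT : Triangle.mk f g h ∈ distTriang C) (h1 : Zer P R) (h2 : Zer Q P) (hQ : Conc Q Q 0) :
    Conc R R 0 :=
  Conc.con hT h1 (Conc.cov hT h2 hQ)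

/-- **One step of the construction.** If `(P, Q)` is an exceptional pair and the morphisms from
`P` to the shifts of `Q` are one-dimensional and concentrated in degree `m`, there is an exceptional
object `R` and an exact triangle `P → Q[m] → R → P[1]`. -/
theorem step {P Q : C} {m : ℤ} (hP : Conc P P 0) (hQ : Conc Q Q 0) (h1 : Zer Q P)
    (h2 : Conc P Q m) : ∃ (R : C) (f : P ⟶ Q⟦m⟧) (g : Q⟦m⟧ ⟶ R) (h : R ⟶ P⟦(1 : ℤ)⟧),
      Triangle.mk f g h ∈ distTriang C ∧ Conc R R 0 := by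
  obtain ⟨f, hf, hs⟩ := exists_of_rank_one (h2.one : Module.rank ℂ (P ⟶ Q⟦m⟧) = 1)
  obtain ⟨R, g, h, hT⟩ := distinguished_cocone_triangle f
  refine ⟨R, f, g, h, hT, ?_⟩
  have h3 := h2.right m
  rw [sub_self] at h3
  have h4 := (hQ.left m).right m
  rw [zero_add, sub_self] at h4
  exact conc_cone hT (kill_zer hT hP hf hs h3) (h1.left m) h4

/-! ### Additive functions -/

section

variable {G : Type*} [AddCommGroup G] {χ : C → G}
  (hχ : ∀ (X Y V : C) (f : X ⟶ Y) (g : Y ⟶ V) (h : V ⟶ X⟦(1 : ℤ)⟧),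
    Triangle.mk f g h ∈ distTriang C → χ Y = χ X + χ V)
include hχ

theorem chi_zero : χ 0 = 0 := by
  have h := hχ _ _ _ _ _ _ (contractible_distinguished (0 : C))
  have h' : χ 0 = χ 0 + χ 0 := h
  have h2 : χ 0 + χ 0 = χ 0 + 0 := by rw [add_zero]; exact h'.symm
  exact add_left_cancel h2

theorem chi_iso {X Y : C} (e : X ≅ Y) : χ X = χ Y := by
  have hT : Triangle.mk e.hom (0 : Y ⟶ 0) (0 : (0 : C) ⟶ X⟦(1 : ℤ)⟧) ∈ distTriang C := by
    refine isomorphic_distinguished _ (contractible_distinguished X) _ ?_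
    exact Triangle.isoMk _ _ (Iso.refl X) e.symm (Iso.refl _)
      (e.hom_inv_id.trans (Category.id_comp _).symm) (zero_comp.trans comp_zero.symm)
      (zero_comp.trans comp_zero.symm)
  have h := hχ _ _ _ _ _ _ hT
  rw [chi_zero hχ, add_zero] at h
  exact h.symm

theorem chi_shift (X : C) : χ (X⟦(1 : ℤ)⟧) = - χ X := by
  have h := hχ _ _ _ _ _ _ (rot_of_distTriang _ (contractible_distinguished X))
  have h' : χ 0 = χ X + χ (X⟦(1 : ℤ)⟧) := h
  rw [chi_zero hχ] at h'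
  exact (neg_eq_of_add_eq_zero_right h'.symm).symm

theorem chi_succ (X : C) (n : ℤ) : χ (X⟦n + 1⟧) = - χ (X⟦n⟧) := by
  rw [← chi_shift hχ]
  exact chi_iso hχ ((shiftFunctorAdd C n 1).app X)

theorem chi_five (X : C) : χ (X⟦(5 : ℤ)⟧) = - χ X := by
  have h0 : χ (X⟦(0 : ℤ)⟧) = χ X := chi_iso hχ ((shiftFunctorZero C ℤ).app X)
  have h1 := chi_succ hχ X 0
  have h2 := chi_succ hχ X 1
  have h3 := chi_succ hχ X 2
  have h4 := chi_succ hχ X 3
  have h5 := chi_succ hχ X 4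
  norm_num at h1 h2 h3 h4 h5
  rw [h5, h4, h3, h2, h1, h0]
  simp

end

/-- the degrees of the morphisms between the seven exceptional objects -/
def rel : Fin 7 → Fin 7 → Option ℤ :=
  ![![some 0, none, none, none, none, none, some 1],
    ![some 2, some 0, none, none, none, none, none],
    ![none, some 1, some 0, some 2, none, none, none],
    ![none, none, none, some 0, some 2, none, none],
    ![none, none, none, none, some 0, none, none],
    ![none, none, none, none, some 1, some 0, some 1],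
    ![none, none, none, none, none, none, some 0]]

/-- **Exceptional objects with the same class.** Let `a 0, ..., a 6` be objects such that the
morphisms between their shifts are one-dimensional in the degrees given by the table `rel` and zero
otherwise. Then there is an exceptional object `F` with the same class as `a 6` in the Grothendieck
group which is not isomorphic to a shift of `a 6`. -/
theorem main (a : Fin 7 → C) (H : ∀ i j n, D (a i) (a j) n = if rel i j = some n then 1 else 0) :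
    ∃ F : C, Conc F F 0 ∧ (∀ n : ℤ, IsEmpty (F ≅ (a 6)⟦n⟧)) ∧
      ∀ (G : Type*) [AddCommGroup G] (χ : C → G),
        (∀ (X Y V : C) (f : X ⟶ Y) (g : Y ⟶ V) (h : V ⟶ X⟦(1 : ℤ)⟧),
          Triangle.mk f g h ∈ distTriang C → χ Y = χ X + χ V) → χ F = χ (a 6) := by
  have z : ∀ {i j : Fin 7}, rel i j = none → Zer (a i) (a j) := fun {i j} h n => by
    rw [H, h]; simp
  have c : ∀ {i j : Fin 7} {m : ℤ}, rel i j = some m → Conc (a i) (a j) m := fun {i j m} h n => by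
    rw [H, h]
    congr 1
    simp [eq_comm]
  -- first object
  obtain ⟨C1, f1, g1, h1, T1, E1⟩ := step (P := a 1) (Q := a 0) (m := 2) (c rfl) (c rfl) (z rfl)
    (c rfl)
  have z1 : ∀ {j : Fin 7}, rel 1 j = none → rel 0 j = none → Zer C1 (a j) := fun p q =>
    Zer.con T1 (z p) ((z q).left 2)
  have z1' : ∀ {j : Fin 7}, rel j 1 = none → rel j 0 = none → Zer (a j) C1 := fun p q =>
    Zer.cov T1 (z p) ((z q).right 2)
  have c21 : Conc (a 2) C1 0 := Conc.cov' T1 ((z rfl).right 2) (c (m := 1) rfl)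
  -- second object
  obtain ⟨C2, f2, g2, h2, T2, E2⟩ := step (P := a 2) (Q := C1) (m := 0) (c rfl) E1
    (z1 rfl rfl) c21
  have z2 : ∀ {j : Fin 7}, rel 2 j = none → rel 1 j = none → rel 0 j = none → Zer C2 (a j) :=
    fun p q r => Zer.con T2 (z p) ((z1 q r).left 0)
  have z2' : ∀ {j : Fin 7}, rel j 2 = none → rel j 1 = none → rel j 0 = none → Zer (a j) C2 :=
    fun p q r => Zer.cov T2 (z p) ((z1' q r).right 0)
  have c23 : Conc C2 (a 3) 3 := Conc.con' T2 ((z1 rfl rfl).left 0) (c (m := 2) rfl)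
  -- third object
  obtain ⟨C3, f3, g3, h3, T3, E3⟩ := step (P := C2) (Q := a 3) (m := 3) E2 (c rfl)
    (z2' rfl rfl rfl) c23
  have z3' : ∀ {j : Fin 7}, rel j 3 = none → rel j 2 = none → rel j 1 = none → rel j 0 = none →
      Zer (a j) C3 := fun p q r s => Zer.cov T3 (z2' q r s) ((z p).right 3)
  -- the object Y
  obtain ⟨Y, fY, gY, hY, TY, EY⟩ := step (P := a 5) (Q := a 4) (m := 1) (c rfl) (c rfl) (z rfl)
    (c rfl)
  have c34 : Conc C3 (a 4) 5 := Conc.con T3 (z2 rfl rfl rfl) ((c (m := 2) rfl).left 3)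
  have z35 : Zer C3 (a 5) := Zer.con T3 (z2 rfl rfl rfl) ((z rfl).left 3)
  have c3Y : Conc C3 Y 4 := Conc.cov TY z35 (c34.right 1)
  have zY3 : Zer Y C3 := Zer.con TY (z3' rfl rfl rfl rfl) ((z3' rfl rfl rfl rfl).left 1)
  -- the object X
  obtain ⟨X, fX, gX, hX, TX, EX⟩ := step (P := C3) (Q := Y) (m := 4) E3 EY zY3 c3Y
  have zdY : Zer (a 6) Y := Zer.cov TY (z rfl) ((z rfl).right 1)
  have zdX : Zer (a 6) X := Zer.cov TX (z3' rfl rfl rfl rfl) (zdY.right 4)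
  have c1d : Conc C1 (a 6) 3 := Conc.con T1 (z rfl) ((c (m := 1) rfl).left 2)
  have c2d : Conc C2 (a 6) 3 := Conc.con T2 (z rfl) (c1d.left 0)
  have c3d : Conc C3 (a 6) 4 := Conc.con' T3 ((z rfl).left 3) c2d
  have cYd : Conc Y (a 6) 2 := Conc.con' TY ((z rfl).left 1) (c (m := 1) rfl)
  have cYd4 : Conc (Y⟦(4 : ℤ)⟧) (a 6) 6 := cYd.left 4
  have d5 : D X (a 6) 5 = 1 := by
    rw [con' TX (a 6) 5 (cYd4.zero (by norm_num)) (cYd4.zero (by norm_num))]
    exact c3d.one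
  have d6 : D X (a 6) 6 = 1 := by
    rw [con TX (a 6) 6 (c3d.zero (by norm_num)) (c3d.zero (by norm_num))]
    exact cYd4.one
  have dn : ∀ n : ℤ, n ≠ 5 → n ≠ 6 → D X (a 6) n = 0 := by
    intro n h5 h6
    refine con_zero (rot_of_distTriang _ TX) (a 6) n (cYd4.zero h6) ?_
    have h7 : D (C3⟦(1 : ℤ)⟧) (a 6) n = 0 := by
      rw [D_left]
      exact c3d.zero (by omega)
    exact h7
  -- the object F1
  obtain ⟨f, hf, hs⟩ := exists_of_rank_one (d5 : Module.rank ℂ (X ⟶ (a 6)⟦(5 : ℤ)⟧) = 1)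
  obtain ⟨F1, g, h, TF1⟩ := distinguished_cocone_triangle f
  have cF1 : Conc X F1 1 := by
    intro n
    by_cases hn : n = 1
    · subst hn
      rw [if_pos rfl, ← cov TF1 X 1 (EX.zero (by norm_num)) (EX.zero (by norm_num)), D_right]
      exact d6
    · rw [if_neg hn]
      refine kill TF1 EX hf hs n fun h0 => ?_
      rw [D_right]
      exact dn _ (by omega) (by omega)
  -- the object F
  obtain ⟨f', hf', hs'⟩ := exists_of_rank_one (cF1.one : Module.rank ℂ (X ⟶ F1⟦(1 : ℤ)⟧) = 1)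
  obtain ⟨F, g', h', TF⟩ := distinguished_cocone_triangle f'
  have cF1' : Conc X (F1⟦(1 : ℤ)⟧) 0 := cF1.right 1
  have zXF : Zer X F := kill_zer TF EX hf' hs' cF1'
  have cdF1 : Conc (a 6) F1 (-5) := Conc.cov TF1 zdX (by
    have := (c (i := 6) (j := 6) (m := 0) rfl).right 5
    rwa [zero_sub] at this)
  have cdF : Conc (a 6) F (-6) := Conc.cov TF zdX (by
    have := cdF1.right 1
    norm_num at this
    exact this)
  have cF1F : Conc F1 F (-1) := Conc.con TF1 zXF (by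
    have := cdF.left 5
    norm_num at this
    exact this)
  have cFF : Conc F F 0 := Conc.con TF zXF (by
    have := cF1F.left 1
    norm_num at this
    exact this)
  refine ⟨F, cFF, ?_, ?_⟩
  · rintro n
    refine ⟨fun e => ?_⟩
    have h1 : D X F (5 - n) = 0 := zXF _
    rw [D_iso (Iso.refl X) e, D_right, add_sub_cancel, d5] at h1
    exact one_ne_zero h1
  · intro G _ χ hχ
    have e1 := hχ _ _ _ _ _ _ TF1
    have e2 := hχ _ _ _ _ _ _ TF
    rw [chi_shift hχ] at e2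
    rw [chi_five hχ] at e1
    have e3 : χ F = - χ F1 - χ X := by rw [e2]; abel
    have e4 : χ F1 = - χ (a 6) - χ X := by rw [e1]; abel
    rw [e3, e4]
    abel

end Pool.Agent.W2helper44.Tc
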