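import Pool.Agent.Helper445_GMF.Surj
import Pool.Agent.Helper445_GMF.Bridge
import Pool.Agent.W2helper44.Tc

/-!
Koszul matrix factorizations for the weights `3, 4, 5`, and the dimensions of the morphism spaces.
-/

set_option autoImplicit false
set_option linter.unusedSectionVars false

open CategoryTheory Matrix Pretriangulated Limits MvPolynomial

namespace Pool.Agent.W2helper44.WPL

open Pool.Agent.Helper445_GMF

section

variable {L : LG}

/-- the number of generators of degree `t` -/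
noncomputable def cnt (g : L.G) (l : List (L.A × L.A × L.G)) (t : L.G) : ℕ :=
  Nat.card {q : Cu Unit l // cg (fun _ => g) l q = t}

theorem cnt_nil (g t : L.G) [Decidable (g = t)] : cnt g [] t = if g = t then 1 else 0 := by
  unfold cnt
  split_ifs with h
  · have e : {q : Cu Unit ([] : List (L.A × L.A × L.G)) // cg (fun _ => g) [] q = t} ≃ Unit :=
      { toFun := fun _ => ()
        invFun := fun _ => ⟨(), h⟩
        left_inv := fun _ => rfl
        right_inv := fun _ => rfl }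
    rw [Nat.card_congr e]; simp
  · have : IsEmpty {q : Cu Unit ([] : List (L.A × L.A × L.G)) // cg (fun _ => g) [] q = t} :=
      ⟨fun q => h q.2⟩
    simp

theorem cnt_cons (g : L.G) (p : L.A × L.A × L.G) (l : List (L.A × L.A × L.G)) (t : L.G) :
    cnt g (p :: l) t = cnt g l t + cnt g l (t + p.2.2 - L.ς) := by
  unfold cnt
  have e : {q : Cu Unit (p :: l) // cg (fun _ => g) (p :: l) q = t} ≃
      {q : Cu Unit l // cg (fun _ => g) l q = t} ⊕
      {q : Cu Unit l // cg (fun _ => g) l q = t + p.2.2 - L.ς} := by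
    refine (Equiv.subtypeSum (p := fun q => cg (fun _ => g) (p :: l) q = t)).trans
      (Equiv.sumCongr (Equiv.refl _) (Equiv.subtypeEquivRight fun q => ?_))
    show cg (fun _ => g) l q + -p.2.2 + (1 : ℤ) • L.ς = t ↔ _
    rw [one_smul]
    constructor
    · rintro rfl; abel
    · intro h; rw [h]; abel
  rw [Nat.card_congr e, Nat.card_sum]

end

/-- the degrees of the variables -/
def wts : Fin 3 → ℕ := ![20, 15, 12]

/-- the equation of the weighted projective line of weights `3, 4, 5` -/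
noncomputable def pot (lam : ℂ) : MvPolynomial (Fin 3) ℂ :=
  X 2 ^ 5 - X 1 ^ 4 + C lam * X 0 ^ 3

theorem pot_wh (lam : ℂ) : IsWeightedHomogeneous wts (pot lam) 60 := by
  have h0 := (isWeightedHomogeneous_X ℂ wts 0).pow 3
  have h1 := (isWeightedHomogeneous_X ℂ wts 1).pow 4
  have h2 := (isWeightedHomogeneous_X ℂ wts 2).pow 5
  have e0 : 3 • wts 0 = 60 := rfl
  have e1 : 4 • wts 1 = 60 := rfl
  have e2 : 5 • wts 2 = 60 := rfl
  rw [e0] at h0
  rw [e1] at h1
  rw [e2] at h2
  have h3 := (isWeightedHomogeneous_C wts lam).mul h0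
  rw [zero_add] at h3
  exact ((weightedHomogeneousSubmodule ℂ wts 60).sub_mem h2 h1 |> fun h =>
    (weightedHomogeneousSubmodule ℂ wts 60).add_mem h h3)

/-- the data of the matrix factorizations -/
noncomputable abbrev LL (lam : ℂ) : LG := lg wts 60 (pot lam) (pot_wh lam)

/-- the Koszul matrix factorization, twisted by `-s` -/
noncomputable def K (lam : ℂ) (s : ℤ) : MF (LL lam) :=
  KK (by norm_num : 0 < 60) (pot_wh lam) (fun _ : Unit => -(s • tau 60))

theorem wts_ne (i : Fin 3) : wts i ≠ 60 := by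
  fin_cases i <;> simp [wts]

theorem K_red (lam : ℂ) (s : ℤ) : Red0 (K lam s) :=
  KK_red (by norm_num : 0 < 60) (pot_wh lam) wts_ne _

theorem gd_iff (x m : ℤ) : x • tau 60 + m • sig 60 = 0 ↔ x + 30 * m = 0 ∧ m % 2 = 0 := by
  have h2 : (m : ZMod 2) = 0 ↔ m % 2 = 0 := by
    rw [ZMod.intCast_zmod_eq_zero_iff_dvd]
    omega
  rw [Subtype.ext_iff, Prod.ext_iff]
  have e1 : ((x • tau 60 + m • sig 60 : Gd 60) : ℤ × ZMod 2).1 = x * 2 + m * 60 := by
    simp [tau, sig]
  have e2 : ((x • tau 60 + m • sig 60 : Gd 60) : ℤ × ZMod 2).2 = (m : ZMod 2) := by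
    simp [tau, sig]
  rw [e1, e2]
  show x * 2 + m * 60 = 0 ∧ (m : ZMod 2) = 0 ↔ _
  rw [h2]
  constructor
  · rintro ⟨h, h'⟩; exact ⟨by omega, h'⟩
  · rintro ⟨h, h'⟩; exact ⟨by omega, h'⟩

/-- one of the summands -/
def ind (x b m n : ℤ) : ℕ := if x + b + 30 * (n - m) = 0 ∧ (n - m) % 2 = 0 then 1 else 0

/-- the dimension of the space of the morphisms of degree `n` from `K s` to `K t`, `x = s - t` -/
def cn (x n : ℤ) : ℕ :=
  ((ind x 0 0 n + ind x 12 1 n) + (ind x 15 1 n + ind x 27 2 n)) +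
  ((ind x 20 1 n + ind x 32 2 n) + (ind x 35 2 n + ind x 47 3 n))

theorem red_sh {lam : ℂ} {E : MF (LL lam)} (hE : Red0 E) (n : ℤ) : Red0 (E.sh n) := by
  intro i j
  show constantCoeff ((sgn n • E.D) i j) = 0
  rw [Matrix.smul_apply, constantCoeff_smul, hE i j, smul_zero]

theorem cnt_K (lam : ℂ) (s t n : ℤ) :
    cnt (L := LL lam) (-(s • tau 60)) (ps (pot_wh lam) (List.finRange 3))
      (-(t • tau 60) + n • sig 60) = cn (s - t) n := by
  classical
  have hf : List.finRange 3 = [0, 1, 2] := rfl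
  rw [hf]
  have w0 : wt wts 60 0 = (20 : ℤ) • tau 60 := rfl
  have w1 : wt wts 60 1 = (15 : ℤ) • tau 60 := rfl
  have w2 : wt wts 60 2 = (12 : ℤ) • tau 60 := rfl
  have key : ∀ (r : Gd 60) (b m : ℤ), r = -(t • tau 60) + n • sig 60 + (b • tau 60 - m • sig 60) →
      cnt (L := LL lam) (-(s • tau 60)) (ps (pot_wh lam) []) r = ind (s - t) b m n := by
    intro r b m hr
    rw [ps, cnt_nil]
    unfold ind
    congr 1
    rw [← gd_iff, hr]
    refine propext ⟨fun h => ?_, fun h => ?_⟩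
    · have h2 := congrArg (fun y => y + s • tau 60) h
      simp only [neg_add_cancel] at h2
      rw [h2]
      module
    · rw [← sub_eq_zero, ← neg_eq_zero, ← h]
      module
  have cc : ∀ (p : MvPolynomial (Fin 3) ℂ × MvPolynomial (Fin 3) ℂ × Gd 60)
      (l : List (MvPolynomial (Fin 3) ℂ × MvPolynomial (Fin 3) ℂ × Gd 60)) (r : Gd 60),
      cnt (L := LL lam) (-(s • tau 60)) (p :: l) r = cnt (L := LL lam) (-(s • tau 60)) l r +
        cnt (L := LL lam) (-(s • tau 60)) l (r + p.2.2 - sig 60) :=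
    fun p l r => cnt_cons (L := LL lam) _ p l r
  simp only [ps] at key ⊢
  rw [cc, cc, cc, cc, cc, cc, cc]
  unfold cn
  rw [key _ 0 0 (by module), key _ 12 1 (by rw [w2]; module), key _ 15 1 (by rw [w1]; module),
    key _ 27 2 (by rw [w1, w2]; module), key _ 20 1 (by rw [w0]; module),
    key _ 32 2 (by rw [w0, w2]; module), key _ 35 2 (by rw [w0, w1]; module),
    key _ 47 3 (by rw [w0, w1, w2]; module)]

theorem D_K (lam : ℂ) (s t n : ℤ) : Tc.D (K lam s) (K lam t) n = (cn (s - t) n : ℕ) := by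
  rw [Tc.D_neg]
  have h := rank_KK (hd := (by norm_num : 0 < 60)) wts_ne (fun _ : Unit => -(t • tau 60))
    (E := (K lam s).sh (-n)) (red_sh (K_red lam s) _)
  have h' : Module.rank ℂ ((K lam s)⟦-n⟧ ⟶ K lam t) = _ := h
  rw [h']
  congr 1
  rw [← cnt_K lam s t n, ← Nat.card_eq_fintype_card]
  unfold cnt
  refine Nat.card_congr ?_
  have hiff : ∀ x : Gd 60, x + (-n) • sig 60 = -(t • tau 60) ↔ x = -(t • tau 60) + n • sig 60 := by
    intro x
    constructor
    · intro h; rw [← h]; module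
    · intro h; rw [h]; module
  exact
    { toFun := fun q => ⟨q.1.2, (hiff _).1 q.2⟩
      invFun := fun q => ⟨((), q.1), (hiff _).2 q.2⟩
      left_inv := fun _ => rfl
      right_inv := fun _ => rfl }

/-- the twists of the seven objects -/
def sv : Fin 7 → ℤ := ![39, 12, 0, 35, 62, 42, 54]

theorem sv_bd (i : Fin 7) : 0 ≤ sv i ∧ sv i ≤ 62 := by
  fin_cases i <;> simp [sv]

theorem cn_far {x n : ℤ} (hx : -62 ≤ x ∧ x ≤ 62) (hn : n < -7 ∨ 7 < n) : cn x n = 0 := by
  unfold cn ind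
  rw [if_neg (by omega), if_neg (by omega), if_neg (by omega), if_neg (by omega),
    if_neg (by omega), if_neg (by omega), if_neg (by omega), if_neg (by omega)]

theorem rel_near : ∀ (i j : Fin 7) (n : ℤ), Tc.rel i j = some n → -7 ≤ n ∧ n ≤ 7 := by
  intro i j n h
  have : ∀ (i j : Fin 7), ∀ m ∈ Tc.rel i j, -7 ≤ m ∧ m ≤ 7 := by decide +kernel
  exact this i j n h

theorem cn_near : ∀ (i j : Fin 7), ∀ n ∈ Finset.Icc (-7 : ℤ) 7,
    cn (sv i - sv j) n = if Tc.rel i j = some n then 1 else 0 := by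
  decide +kernel

theorem cn_rel (i j : Fin 7) (n : ℤ) :
    cn (sv i - sv j) n = if Tc.rel i j = some n then 1 else 0 := by
  by_cases h : -7 ≤ n ∧ n ≤ 7
  · exact cn_near i j n (Finset.mem_Icc.2 h)
  · rw [if_neg fun h' => h (rel_near i j n h')]
    have h1 := sv_bd i
    have h2 := sv_bd j
    exact cn_far (by omega) (by omega)

theorem exists_F (lam : ℂ) : ∃ F : MF (LL lam), Tc.Conc F F 0 ∧ Tc.Conc (K lam 54) (K lam 54) 0 ∧
    (∀ n : ℤ, IsEmpty (F ≅ (K lam 54)⟦n⟧)) ∧
      ∀ (G : Type 1) [AddCommGroup G] (χ : MF (LL lam) → G),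
        (∀ (X Y V : MF (LL lam)) (f : X ⟶ Y) (g : Y ⟶ V) (h : V ⟶ X⟦(1 : ℤ)⟧),
          Triangle.mk f g h ∈ distTriang (MF (LL lam)) → χ Y = χ X + χ V) →
        χ F = χ (K lam 54) := by
  have H : ∀ i j n, Tc.D (K lam (sv i)) (K lam (sv j)) n =
      if Tc.rel i j = some n then 1 else 0 := by
    intro i j n
    rw [D_K, cn_rel]
    split_ifs <;> simp
  obtain ⟨F, h1, h2, h3⟩ := Tc.main (fun i => K lam (sv i)) H
  refine ⟨F, h1, ?_, h2, h3⟩
  intro n
  have h4 := H 6 6 n
  have h5 : Tc.rel 6 6 = some 0 := rfl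
  rw [h5] at h4
  have h6 : Tc.D (K lam 54) (K lam 54) n = _ := h4
  rw [h6]
  congr 1
  simp [eq_comm]

end Pool.Agent.W2helper44.WPL
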